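import Mathlib
import Pool.Agent.H20.Boo3

set_option autoImplicit false

namespace Pool.Agent.Results.MP_d9b86d_al.Exists

open Pool.Agent.H20.BooDef

theorem result (α : Type) [Nontrivial α] [Countable α] :
    ∃ D : SubG (FreeGroup α), Infinite D.sg ∧ IsBoomerang D ∧
      ¬ ∃ μ : MeasureTheory.Measure (SubG (FreeGroup α)), IsIRS μ ∧ μ (orbClosure D) = 1 :=
  Pool.Agent.H20.Boo3.main α

end Pool.Agent.Results.MP_d9b86d_al.Exists
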